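import Pool.Agent.P.MP_8e22c2_al.Shift

set_option autoImplicit false

namespace Pool.Agent.P.MP_8e22c2_al

open Filter Cardinal

variable {α : Type}

open Classical in
/-- transport an endomorphism along an injection of the basis, identity elsewhere -/
noncomputable def ext (j : α ↪ α) (ψ : FreeGroup α →* FreeGroup α) :
    FreeGroup α →* FreeGroup α :=
  FreeGroup.lift fun x =>
    if h : ∃ y, j y = x then FreeGroup.map j (ψ (FreeGroup.of h.choose)) else FreeGroup.of x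

theorem ext_of_not (j : α ↪ α) (ψ : FreeGroup α →* FreeGroup α) (x : α) (h : ¬ ∃ y, j y = x) :
    ext j ψ (FreeGroup.of x) = FreeGroup.of x := by
  rw [ext, FreeGroup.lift_apply_of, dif_neg h]

theorem ext_map (j : α ↪ α) (ψ : FreeGroup α →* FreeGroup α) (w : FreeGroup α) :
    ext j ψ (FreeGroup.map j w) = FreeGroup.map j (ψ w) := by
  have : (ext j ψ).comp (FreeGroup.map j) = (FreeGroup.map j).comp ψ := by
    refine FreeGroup.ext_hom _ _ fun x => ?_
    have h : ∃ y, j y = j x := ⟨x, rfl⟩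
    simp only [MonoidHom.comp_apply, FreeGroup.map.of]
    rw [ext, FreeGroup.lift_apply_of, dif_pos h, j.injective h.choose_spec]
  exact DFunLike.congr_fun this w

theorem ext_ext (j : α ↪ α) (ψ χ : FreeGroup α →* FreeGroup α) (h : ∀ w, ψ (χ w) = w)
    (w : FreeGroup α) : ext j ψ (ext j χ w) = w := by
  have : (ext j ψ).comp (ext j χ) = MonoidHom.id _ := by
    refine FreeGroup.ext_hom _ _ fun x => ?_
    simp only [MonoidHom.comp_apply, MonoidHom.id_apply]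
    by_cases hx : ∃ y, j y = x
    · obtain ⟨y, rfl⟩ := hx
      rw [← FreeGroup.map.of, ext_map, ext_map, h]
    · rw [ext_of_not _ _ _ hx, ext_of_not _ _ _ hx]
  exact DFunLike.congr_fun this w

theorem exists_ext (j : α ↪ α) (φ : MulAut (FreeGroup α)) :
    ∃ β : MulAut (FreeGroup α), (∀ w, β (FreeGroup.map j w) = FreeGroup.map j (φ w)) ∧
      ∀ x, (¬ ∃ y, j y = x) → β (FreeGroup.of x) = FreeGroup.of x := by
  refine ⟨⟨⟨ext j φ.toMonoidHom, ext j φ.symm.toMonoidHom, ?_, ?_⟩, ?_⟩, ?_, ?_⟩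
  · exact ext_ext j _ _ (by simp)
  · exact ext_ext j _ _ (by simp)
  · exact map_mul _
  · exact ext_map j _
  · exact ext_of_not j _

theorem exists_emb [Infinite α] (A : Set α) (hA : #(Aᶜ : Set α) = #α) :
    ∃ (j : α ↪ α) (Z : Set α), Z ⊆ Aᶜ ∧ #Z = #α ∧ (∀ x ∈ A, j x = x) ∧
      ∀ x ∈ Z, ¬ ∃ y, j y = x := by
  classical
  have h1 : #((Aᶜ : Set α) ⊕ (Aᶜ : Set α)) = #(Aᶜ : Set α) := by
    rw [Cardinal.mk_sum, Cardinal.lift_id, hA]
    exact Cardinal.add_eq_self (Cardinal.aleph0_le_mk α)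
  obtain ⟨e⟩ := Cardinal.eq.1 h1
  refine ⟨⟨fun x => if h : x ∈ A then x else (e (Sum.inl ⟨x, h⟩)).1, ?_⟩,
    Set.range fun y => (e (Sum.inr y)).1, ?_, ?_, ?_, ?_⟩
  · intro x y hxy
    by_cases hx : x ∈ A <;> by_cases hy : y ∈ A <;> simp only [hx, hy, dite_true, dite_false] at hxy
    · exact hxy
    · exact absurd (hxy ▸ hx) (e (Sum.inl ⟨y, hy⟩)).2
    · exact absurd (hxy ▸ hy) (e (Sum.inl ⟨x, hx⟩)).2
    · have := e.injective (Subtype.ext hxy)
      simpa using this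
  · rintro _ ⟨y, rfl⟩
    exact (e (Sum.inr y)).2
  · rw [Cardinal.mk_range_eq, hA]
    intro a b hab
    have := e.injective (Subtype.ext hab)
    simpa using this
  · intro x hx
    exact dif_pos hx
  · rintro _ ⟨y, rfl⟩ ⟨x, hx⟩
    replace hx : (if h : x ∈ A then x else (e (Sum.inl ⟨x, h⟩)).1) = (e (Sum.inr y)).1 := hx
    by_cases h : x ∈ A
    · rw [dif_pos h] at hx
      exact (e (Sum.inr y)).2 (hx ▸ h)
    · rw [dif_neg h] at hx
      have := e.injective (Subtype.ext hx)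
      simp at this

/-- relabelling trick -/
theorem relabel [Infinite α] (φ : MulAut (FreeGroup α)) (A : Set α) (hA : #(Aᶜ : Set α) = #α) :
    ∃ (β : MulAut (FreeGroup α)) (Z : Set α), Z ⊆ Aᶜ ∧ #Z = #α ∧
      (∀ x ∈ Z, β (FreeGroup.of x) = FreeGroup.of x) ∧
      ∀ x ∈ A, φ (FreeGroup.of x) ∈ Sp A → β (FreeGroup.of x) = φ (FreeGroup.of x) := by
  obtain ⟨j, Z, hZ, hZc, hj, hjZ⟩ := exists_emb A hA
  obtain ⟨β, hβ, hβ'⟩ := exists_ext j φ
  refine ⟨β, Z, hZ, hZc, fun x hx => hβ' x (hjZ x hx), fun x hx hφ => ?_⟩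
  have h1 : ∀ w ∈ Sp A, FreeGroup.map j w = MonoidHom.id _ w :=
    eq_on_Sp _ _ fun y hy => by simp [hj y hy]
  have h2 := hβ (FreeGroup.of x)
  rw [h1 _ hφ, h1 _ (of_mem_Sp hx)] at h2
  exact h2

theorem exists_large_small [Uncountable α] (f : α → Set α) (hf : ∀ x, (f x).Finite) :
    ∃ Y A : Set α, #Y = #α ∧ #(Aᶜ : Set α) = #α ∧ ∀ y ∈ Y, f y ⊆ A := by
  have hprod : #α = #(α × α) := by simp
  obtain ⟨e⟩ := Cardinal.eq.1 hprod
  let Y : α → Set α := fun ξ => {x | f x ⊆ {z | (e z).1 ≠ ξ}}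
  have hA : ∀ ξ, #(({z | (e z).1 ≠ ξ} : Set α)ᶜ : Set α) = #α := by
    intro ξ
    rw [← mk_fiber_fst (γ := α) ξ]
    refine Cardinal.mk_congr (e.subtypeEquiv fun a => ?_)
    simp
  suffices h : ∃ ξ, #(Y ξ) = #α by
    obtain ⟨ξ, hξ⟩ := h
    exact ⟨Y ξ, _, hξ, hA ξ, fun y hy => hy⟩
  by_contra hcon
  push Not at hcon
  have hlt : ∀ ξ, #(Y ξ) < #α := fun ξ => lt_of_le_of_ne (Cardinal.mk_set_le _) (hcon ξ)
  have hdown : ∃ ξ₀, {ξ | #(Y ξ) ≤ #(Y ξ₀)}.Infinite := by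
    by_contra hfin
    push Not at hfin
    let u : ℕ ↪ α := Infinite.natEmbedding α
    have hc : (⋃ i, {ξ | #(Y ξ) ≤ #(Y (u i))}).Countable :=
      Set.countable_iUnion fun i => (hfin _).countable
    obtain ⟨ξ, hξ⟩ : ∃ ξ, ξ ∉ ⋃ i, {ξ | #(Y ξ) ≤ #(Y (u i))} := by
      by_contra h
      push Not at h
      exact Set.not_countable_univ (hc.mono fun x _ => h x)
    simp only [Set.mem_iUnion, not_exists] at hξ
    refine (Set.infinite_range_of_injective u.injective) ((hfin ξ).subset ?_)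
    rintro _ ⟨i, rfl⟩
    exact le_of_lt (not_le.1 (show ¬ (#(Y ξ) ≤ #(Y (u i))) from hξ i))
  obtain ⟨ξ₀, hξ₀⟩ := hdown
  let u := hξ₀.natEmbedding
  have hcov : (Set.univ : Set α) = ⋃ i, Y (u i).1 := by
    refine (Set.eq_univ_of_forall fun x => ?_).symm
    by_contra h
    simp only [Set.mem_iUnion, not_exists] at h
    have hinj : Function.Injective fun i => (u i).1 :=
      Subtype.val_injective.comp u.injective
    refine (Set.infinite_range_of_injective hinj) (((hf x).image fun z => (e z).1).subset ?_)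
    rintro _ ⟨i, rfl⟩
    have := h i
    simp only [Y, Set.mem_ofPred_eq, Set.not_subset, not_not] at this
    obtain ⟨z, hz, hz'⟩ := this
    exact ⟨z, hz, hz'⟩
  have h1 : #α ≤ ℵ₀ * #(Y ξ₀) := by
    rw [← Cardinal.mk_univ, hcov]
    refine (Cardinal.mk_iUnion_le _).trans ?_
    rw [Cardinal.mk_nat]
    gcongr
    exact ciSup_le' fun i => (u i).2
  have h2 : ℵ₀ * #(Y ξ₀) < #α :=
    Cardinal.mul_lt_of_lt (Cardinal.aleph0_le_mk α) Cardinal.aleph0_lt_mk (hlt ξ₀)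
  exact absurd h1 (not_le.2 h2)

/-- The factorisation property. -/
def Fac (φ : MulAut (FreeGroup α)) : Prop :=
  ∃ (β : MulAut (FreeGroup α)) (Z Y : Set α), #Z = #α ∧ #Y = #α ∧
    (∀ x ∈ Z, β (FreeGroup.of x) = FreeGroup.of x) ∧
    ∀ x ∈ Y, β (FreeGroup.of x) = φ (FreeGroup.of x)

theorem fac_uncountable [Uncountable α] (φ : MulAut (FreeGroup α)) : Fac φ := by
  choose s hs hs' using fun x => exists_support (φ (FreeGroup.of x))
  obtain ⟨Y, A, hY, hA, h⟩ := exists_large_small (fun x => insert x (s x))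
    (fun x => (hs x).insert x)
  obtain ⟨β, Z, -, hZ, h1, h2⟩ := relabel φ A hA
  exact ⟨β, Z, Y, hZ, hY, h1, fun x hx => h2 x (h x hx (Set.mem_insert _ _))
    (Sp_mono ((Set.subset_insert _ _).trans (h x hx)) (hs' x))⟩

theorem new_fixed [Infinite α] (β : MulAut (FreeGroup α)) (D : Set α) (hD : D.Finite) :
    ∃ (β' : MulAut (FreeGroup α)) (y : α), y ∉ D ∧ β' (FreeGroup.of y) = FreeGroup.of y ∧
      ∀ x ∈ D, β' (FreeGroup.of x) = β (FreeGroup.of x) := by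
  choose s hs hs' using fun x => exists_support (β (FreeGroup.of x))
  have hfin : (D ∪ ⋃ x ∈ D, s x).Finite := hD.union (hD.biUnion fun x _ => hs x)
  obtain ⟨β', Z, hZ, hZc, h1, h2⟩ := relabel β (D ∪ ⋃ x ∈ D, s x)
    (Cardinal.mk_compl_of_infinite _
      (hfin.lt_aleph0.trans_le (Cardinal.aleph0_le_mk α)))
  obtain ⟨y, hy⟩ : Z.Nonempty := by
    rw [← Set.nonempty_coe_sort, ← Cardinal.mk_ne_zero_iff, hZc]
    exact Cardinal.mk_ne_zero α
  refine ⟨β', y, fun h => hZ hy (Or.inl h), h1 y hy, fun x hx => h2 x (Or.inl hx) ?_⟩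
  exact Sp_mono (fun z hz => Or.inr (Set.mem_biUnion hx hz)) (hs' x)

theorem step [Infinite α] (φ β : MulAut (FreeGroup α)) (D : Set α) (hD : D.Finite) (a : α) :
    ∃ (β' : MulAut (FreeGroup α)) (D' : Set α), D'.Finite ∧ D ⊆ D' ∧
      (∀ x ∈ D, β' (FreeGroup.of x) = β (FreeGroup.of x)) ∧ a ∈ D' ∧
      β'⁻¹ (FreeGroup.of a) ∈ Sp D' ∧
      (∃ y ∈ D', y ∉ D ∧ β' (FreeGroup.of y) = FreeGroup.of y) ∧
      (∃ y ∈ D', y ∉ D ∧ β' (FreeGroup.of y) = φ (FreeGroup.of y)) := by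
  obtain ⟨β₁, y₁, hy₁, h1, h1'⟩ := new_fixed β D hD
  obtain ⟨β₂, y₂, hy₂, h2, h2'⟩ := new_fixed (φ⁻¹ * β₁) (insert y₁ D) (hD.insert _)
  obtain ⟨s, hs, hs'⟩ := exists_support ((φ * β₂)⁻¹ (FreeGroup.of a))
  have h3 : ∀ x ∈ insert y₁ D, (φ * β₂) (FreeGroup.of x) = β₁ (FreeGroup.of x) := by
    intro x hx
    rw [MulAut.mul_apply, h2' x hx]
    simp
  refine ⟨φ * β₂, insert a (insert y₂ (insert y₁ D)) ∪ s,
    (((hD.insert _).insert _).insert _).union hs, ?_, ?_, ?_, ?_, ⟨y₁, ?_, hy₁, ?_⟩,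
    ⟨y₂, ?_, ?_, ?_⟩⟩
  · intro x hx
    simp [hx]
  · intro x hx
    rw [h3 x (Set.mem_insert_of_mem _ hx), h1' x hx]
  · simp
  · exact Sp_mono Set.subset_union_right hs'
  · simp
  · rw [h3 _ (Set.mem_insert _ _), h1]
  · simp
  · exact fun h => hy₂ (Set.mem_insert_of_mem _ h)
  · rw [MulAut.mul_apply, h2]

theorem fac_countable [Infinite α] [Countable α] (φ : MulAut (FreeGroup α)) : Fac φ := by
  obtain ⟨a, ha⟩ := exists_surjective_nat α
  choose B E hE using step φ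
  let st : ℕ → MulAut (FreeGroup α) × {D : Set α // D.Finite} := fun n =>
    Nat.rec (1, ⟨∅, Set.finite_empty⟩)
      (fun n p => (B p.1 p.2.1 p.2.2 (a n), ⟨E p.1 p.2.1 p.2.2 (a n), (hE _ _ _ _).1⟩)) n
  let β : ℕ → MulAut (FreeGroup α) := fun n => (st n).1
  let D : ℕ → Set α := fun n => (st n).2.1
  have hD : ∀ n, (D n).Finite := fun n => (st n).2.2
  have H : ∀ n, D n ⊆ D (n + 1) ∧
      (∀ x ∈ D n, β (n + 1) (FreeGroup.of x) = β n (FreeGroup.of x)) ∧ a n ∈ D (n + 1) ∧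
      (β (n + 1))⁻¹ (FreeGroup.of (a n)) ∈ Sp (D (n + 1)) ∧
      (∃ y ∈ D (n + 1), y ∉ D n ∧ β (n + 1) (FreeGroup.of y) = FreeGroup.of y) ∧
      (∃ y ∈ D (n + 1), y ∉ D n ∧ β (n + 1) (FreeGroup.of y) = φ (FreeGroup.of y)) :=
    fun n => (hE (β n) (D n) (hD n) (a n)).2
  clear_value β D
  clear st hE
  have mono : Monotone D := monotone_nat_of_le_succ fun n => (H n).1
  have stab : ∀ n m, n ≤ m → ∀ w ∈ Sp (D n), β m w = β n w := by
    intro n m hnm
    refine eq_on_Sp _ _ fun x hx => ?_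
    induction m, hnm using Nat.le_induction with
    | base => rfl
    | succ m hm ih => rw [(H m).2.1 x (mono hm hx), ih]
  have lim : ∀ u : ℕ → MulAut (FreeGroup α),
      (∀ x, ∃ v, ∀ᶠ n in atTop, u n (FreeGroup.of x) = v) →
      ∀ w, ∃ v, ∀ᶠ n in atTop, u n w = v := by
    intro u hu w
    induction w using FreeGroup.induction_on with
    | C1 => exact ⟨1, Eventually.of_forall fun n => map_one _⟩
    | of x => exact hu x
    | inv_of x h =>
      obtain ⟨v, hv⟩ := h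
      exact ⟨v⁻¹, hv.mono fun n hn => by rw [map_inv, hn]⟩
    | mul x y hx hy =>
      obtain ⟨v, hv⟩ := hx
      obtain ⟨v', hv'⟩ := hy
      exact ⟨v * v', (hv.and hv').mono fun n hn => by rw [map_mul, hn.1, hn.2]⟩
  obtain ⟨b, hb⟩ := exists_limit β
    (lim β fun x => by
      obtain ⟨n, rfl⟩ := ha x
      exact ⟨_, eventually_atTop.2 ⟨n + 1, fun m hm =>
        stab (n + 1) m hm _ (of_mem_Sp (H n).2.2.1)⟩⟩)
    (lim (fun n => (β n)⁻¹) fun x => by
      obtain ⟨n, rfl⟩ := ha x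
      refine ⟨(β (n + 1))⁻¹ (FreeGroup.of (a n)), eventually_atTop.2 ⟨n + 1, fun m hm => ?_⟩⟩
      rw [MulAut.inv_apply, MulEquiv.symm_apply_eq, stab (n + 1) m hm _ (H n).2.2.2.1]
      simp)
  have hbD : ∀ n, ∀ x ∈ D n, b (FreeGroup.of x) = β n (FreeGroup.of x) := by
    intro n x hx
    obtain ⟨m, hm1, hm2⟩ := ((hb (FreeGroup.of x)).and (eventually_ge_atTop n)).exists
    rw [← hm1, stab n m hm2 _ (of_mem_Sp hx)]
  have big : ∀ P : α → Prop, (∀ n, ∃ y, y ∉ D n ∧ P y) → #{y | P y} = #α := by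
    intro P hP
    have hinf : {y | P y}.Infinite := by
      intro hfin
      have : ∃ n, {y | P y} ⊆ D n := by
        have h1 : ∀ y ∈ {y | P y}, ∀ᶠ n in atTop, y ∈ D n := by
          intro y _
          obtain ⟨k, rfl⟩ := ha y
          exact eventually_atTop.2 ⟨k + 1, fun m hm => mono hm (H k).2.2.1⟩
        exact ((eventually_all_finite hfin).2 h1).exists
      obtain ⟨n, hn⟩ := this
      obtain ⟨y, hy, hy'⟩ := hP n
      exact hy (hn hy')
    have := hinf.to_subtype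
    rw [Cardinal.mk_eq_aleph0, Cardinal.mk_eq_aleph0]
  refine ⟨b, {y | b (FreeGroup.of y) = FreeGroup.of y},
    {y | b (FreeGroup.of y) = φ (FreeGroup.of y)}, big _ fun n => ?_, big _ fun n => ?_,
    fun x hx => hx, fun x hx => hx⟩
  · obtain ⟨y, hy, hy', hy''⟩ := (H n).2.2.2.2.1
    exact ⟨y, hy', by rw [hbD _ y hy, hy'']⟩
  · obtain ⟨y, hy, hy', hy''⟩ := (H n).2.2.2.2.2
    exact ⟨y, hy', by rw [hbD _ y hy, hy'']⟩

theorem main (α : Type) [Infinite α] :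
    ∃ φ : MulAut (FreeGroup α),
      Subgroup.normalClosure ({φ} : Set (MulAut (FreeGroup α))) = ⊤ := by
  obtain ⟨c₀⟩ : Nonempty (α ≃ ℤ × α) := Cardinal.eq.1 mk_int_prod.symm
  refine ⟨PA (shiftOf c₀), eq_top_iff.2 fun φ _ => ?_⟩
  have hf : Fac φ := by
    by_cases h : Countable α
    · exact fac_countable φ
    · have : Uncountable α := ⟨h⟩
      exact fac_uncountable φ
  obtain ⟨β, Z, Y, hZ, hY, h1, h2⟩ := hf
  have m1 := fixLarge_mem c₀ β Z hZ h1
  have m2 := fixLarge_mem c₀ (β⁻¹ * φ) Y hY (fun y hy => by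
    rw [MulAut.mul_apply, ← h2 y hy]; simp)
  have := Subgroup.mul_mem _ m1 m2
  rwa [mul_inv_cancel_left] at this

end Pool.Agent.P.MP_8e22c2_al
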