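import Pool.Agent.P.MP_8e22c2_al.Wave

set_option autoImplicit false

namespace Pool.Agent.P.MP_8e22c2_al

open Filter Cardinal

variable {α : Type}

theorem mk_int_prod [Infinite α] : #(ℤ × α) = #α := by
  simp

theorem mk_fiber_fst {β γ : Type} (n : β) : #{b : β × γ // b.1 = n} = #γ := by
  refine Cardinal.mk_congr ⟨fun b => b.1.2, fun a => ⟨(n, a), rfl⟩, ?_, ?_⟩
  · rintro ⟨⟨a, b⟩, rfl⟩; rfl
  · intro a; rfl

theorem exists_equiv_level (f : α → ℤ) (hf : ∀ n, #{x // f x = n} = #α) :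
    ∃ c : α ≃ ℤ × α, ∀ x, (c x).1 = f x := by
  have e : ∀ n, {x // f x = n} ≃ {b : ℤ × α // b.1 = n} := fun n =>
    (Cardinal.eq.1 ((hf n).trans (mk_fiber_fst n).symm)).some
  exact ⟨Equiv.ofFiberEquiv (f := f) (g := Prod.fst) e, fun x => Equiv.ofFiberEquiv_map e x⟩

/-- the shift attached to a coordinatisation of the basis -/
def shiftOf (c : α ≃ ℤ × α) : Equiv.Perm α :=
  c.trans ((Equiv.prodCongr (Equiv.addRight (1 : ℤ)) (Equiv.refl α)).trans c.symm)

theorem shiftOf_conj (c d : α ≃ ℤ × α) : IsConj (shiftOf c) (shiftOf d) := by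
  rw [isConj_iff]
  refine ⟨c.trans d.symm, ?_⟩
  ext x
  simp [shiftOf, Equiv.Perm.mul_apply, Equiv.Perm.inv_def]

theorem shiftOf_inv_level (c : α ≃ ℤ × α) (x : α) :
    (c ((shiftOf c)⁻¹ x)).1 = (c x).1 - 1 := by
  simp [shiftOf, Equiv.Perm.inv_def, sub_eq_add_neg]

theorem conj_of_levels (p q : α → ℤ) (c : α ≃ ℤ × α) (hc : ∀ x, (c x).1 = q x)
    (r : Equiv.Perm α) (hr : ∀ x, q (r x) = p x) (hr0 : ∀ x, p x ≤ 0 → r x = x)
    (hpq : ∀ x, q x ≤ 0 ↔ p x ≤ 0)
    (τ : MulAut (FreeGroup α)) (hτ0 : ∀ x, p x ≤ 0 → τ (FreeGroup.of x) = FreeGroup.of x)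
    (hτ : ∀ x, τ⁻¹ (FreeGroup.of x) ∈ Sp {y | q y ≤ p x}) :
    IsConj (PA (shiftOf c)) (τ * PA (shiftOf c * r)) := by
  have hlow : ∀ x, q ((shiftOf c)⁻¹ x) = q x - 1 := fun x => by
    rw [← hc, ← hc, shiftOf_inv_level]
  have hrinv : ∀ x, p (r⁻¹ x) = q x := fun x => by
    rw [← hr]; simp
  have hτ0' : ∀ x, q x ≤ 0 → τ⁻¹ (FreeGroup.of x) = FreeGroup.of x := fun x hx => by
    rw [MulAut.inv_apply, MulEquiv.symm_apply_eq, hτ0 x ((hpq x).1 hx)]
  refine wave _ _ (Sp {x | q x ≤ 0} : Set (FreeGroup α)) ?_ ?_ ?_ ?_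
  · refine map_Sp _ _ fun x hx => ?_
    rw [← map_inv, PA_of]
    refine of_mem_Sp ?_
    show q _ ≤ 0
    rw [hlow]
    have : q x ≤ 0 := hx
    omega
  · refine eq_on_Sp _ _ fun x hx => ?_
    have hx : q x ≤ 0 := hx
    rw [mul_inv_rev, MulAut.mul_apply, hτ0' x hx, ← map_inv, ← map_inv, PA_of, PA_of,
      mul_inv_rev, Equiv.Perm.mul_apply]
    congr 1
    rw [Equiv.Perm.inv_eq_iff_eq, hr0]
    rw [← hpq, hlow]
    omega
  · intro w
    obtain ⟨n, hn⟩ := exists_level q w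
    refine ⟨n, ?_⟩
    have := descend (PA (shiftOf c))⁻¹ (fun n : ℕ => (Sp {x | q x ≤ n} : Set (FreeGroup α)))
      (fun m => map_Sp _ _ fun x hx => ?_) n w hn
    · simpa using this
    · rw [← map_inv, PA_of]
      refine of_mem_Sp ?_
      show q _ ≤ _
      rw [hlow]
      have : q x ≤ ((m + 1 : ℕ) : ℤ) := hx
      omega
  · intro w
    obtain ⟨n, hn⟩ := exists_level p w
    refine ⟨n, ?_⟩
    have := descend (τ * PA (shiftOf c * r))⁻¹
      (fun n : ℕ => (Sp {x | p x ≤ n} : Set (FreeGroup α)))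
      (fun m => map_Sp _ _ fun x hx => ?_) n w hn
    · have e : {x | q x ≤ 0} = {x | p x ≤ ((0 : ℕ) : ℤ)} := by
        ext x; simpa using hpq x
      rw [e]; exact this
    · rw [mul_inv_rev, MulAut.mul_apply]
      refine map_Sp _ _ (fun y hy => ?_) _ (hτ x)
      rw [← map_inv, PA_of]
      refine of_mem_Sp ?_
      show p _ ≤ _
      rw [mul_inv_rev, Equiv.Perm.mul_apply, hrinv, hlow]
      have h1 : p x ≤ ((m + 1 : ℕ) : ℤ) := hx
      have h2 : q y ≤ p x := hy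
      omega

theorem exists_relevel (p q : α → ℤ) (hp : ∀ n, #{x // p x = n} = #α)
    (hq : ∀ n, #{x // q x = n} = #α) (h : ∀ x n, n ≤ 0 → (p x = n ↔ q x = n)) :
    ∃ r : Equiv.Perm α, (∀ x, q (r x) = p x) ∧ ∀ x, p x ≤ 0 → r x = x := by
  have e : ∀ n, ∃ e : {x // p x = n} ≃ {x // q x = n}, n ≤ 0 → ∀ x, (e x).1 = x.1 := by
    intro n
    by_cases hn : n ≤ 0
    · exact ⟨Equiv.subtypeEquivRight fun x => h x n hn, fun _ _ => rfl⟩
    · exact ⟨(Cardinal.eq.1 ((hp n).trans (hq n).symm)).some, fun h' => absurd h' hn⟩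
  choose e he using e
  refine ⟨Equiv.ofFiberEquiv (f := p) (g := q) e, fun x => Equiv.ofFiberEquiv_map e x,
    fun x hx => ?_⟩
  exact he (p x) hx ⟨x, rfl⟩

/-- An automorphism fixing a full-size part of the basis lies in the normal closure of
the shift. -/
theorem fixLarge_mem [Infinite α] (c₀ : α ≃ ℤ × α) (τ : MulAut (FreeGroup α)) (Y : Set α)
    (hY : #Y = #α) (hτ : ∀ y ∈ Y, τ (FreeGroup.of y) = FreeGroup.of y) :
    τ ∈ Subgroup.normalClosure ({PA (shiftOf c₀)} : Set (MulAut (FreeGroup α))) := by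
  classical
  obtain ⟨e⟩ : Nonempty (Y ≃ ℤ × α) := Cardinal.eq.1 (hY.trans mk_int_prod.symm)
  let q : α → ℤ := fun x => if h : x ∈ Y then (e ⟨x, h⟩).1 else 1
  have hl : ∀ x, ∃ n : ℕ, τ⁻¹ (FreeGroup.of x) ∈ Sp {y | q y ≤ n} := fun x => exists_level q _
  choose l hl using hl
  let p : α → ℤ := fun x => if h : x ∈ Y then (e ⟨x, h⟩).1 else (l x + 1 : ℕ)
  have hfib : ∀ f : α → ℤ, (∀ x (h : x ∈ Y), f x = (e ⟨x, h⟩).1) →
      ∀ n, #{x // f x = n} = #α := by
    intro f hf n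
    refine le_antisymm (Cardinal.mk_subtype_le _) ?_
    refine Cardinal.mk_le_of_injective
      (f := fun a => ⟨(e.symm (n, a)).1, by rw [hf _ (e.symm (n, a)).2]; simp⟩) ?_
    intro a b hab
    have h1 : (e.symm (n, a)).1 = (e.symm (n, b)).1 := by
      simpa only [Subtype.mk.injEq] using hab
    have h2 := e.symm.injective (Subtype.ext h1)
    exact (Prod.ext_iff.1 h2).2
  have hp := hfib p (fun x h => by simp [p, h])
  have hq := hfib q (fun x h => by simp [q, h])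
  obtain ⟨c, hc⟩ := exists_equiv_level q hq
  obtain ⟨r, hr, hr0⟩ := exists_relevel p q hp hq (fun x n hn => by
    by_cases h : x ∈ Y
    · simp [p, q, h]
    · simp only [p, q, h, dite_false]
      omega)
  have hpq : ∀ x, q x ≤ 0 ↔ p x ≤ 0 := fun x => by
    by_cases h : x ∈ Y
    · simp [p, q, h]
    · simp only [p, q, h, dite_false]
      omega
  have hpY : ∀ x, p x ≤ 0 → x ∈ Y := fun x hx => by
    by_contra h
    simp only [p, h, dite_false] at hx
    omega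
  have c1 := conj_of_levels p q c hc r hr hr0 hpq τ (fun x hx => hτ x (hpY x hx)) (fun x => by
    by_cases h : x ∈ Y
    · have : τ⁻¹ (FreeGroup.of x) = FreeGroup.of x := by
        rw [MulAut.inv_apply, MulEquiv.symm_apply_eq, hτ x h]
      rw [this]
      refine of_mem_Sp ?_
      show q x ≤ p x
      simp [p, q, h]
    · refine Sp_mono (fun y hy => ?_) (hl x)
      have hy : q y ≤ l x := hy
      show q y ≤ p x
      simp only [p, h, dite_false]
      omega)
  have c2 := conj_of_levels p q c hc r hr hr0 hpq 1 (fun x hx => rfl) (fun x => by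
    refine of_mem_Sp ?_
    show q x ≤ p x
    by_cases h : x ∈ Y
    · simp [p, q, h]
    · simp only [p, q, h, dite_false]
      omega)
  have c0 : IsConj (PA (shiftOf c₀)) (PA (shiftOf c)) := PA.map_isConj (shiftOf_conj c₀ c)
  have mem : ∀ g, IsConj (PA (shiftOf c₀)) g →
      g ∈ Subgroup.normalClosure ({PA (shiftOf c₀)} : Set (MulAut (FreeGroup α))) := by
    intro g hg
    exact Subgroup.conjugatesOfSet_subset_normalClosure
      (Group.mem_conjugatesOfSet_iff.2 ⟨_, rfl, hg⟩)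
  have m1 := mem _ (c0.trans c1)
  have m2 := mem _ (c0.trans c2)
  have := Subgroup.mul_mem _ m1 (Subgroup.inv_mem _ m2)
  rwa [one_mul, mul_inv_cancel_right] at this

end Pool.Agent.P.MP_8e22c2_al
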