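import Mathlib

set_option autoImplicit false

/- Self-contained copy of Wave, Shift, Factor (helper88) under a new namespace, so that the packed row stays untouched, followed by the two-shift theorem. -/

namespace Pool.Agent.P.MP_8e22c2_al.T2

open Filter Cardinal

section General
variable {F : Type*} [Group F]

/-- pointwise limits of automorphisms -/
theorem exists_limit (u : ℕ → MulAut F)
    (h1 : ∀ w, ∃ v, ∀ᶠ n in atTop, u n w = v)
    (h2 : ∀ w, ∃ v, ∀ᶠ n in atTop, (u n)⁻¹ w = v) :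
    ∃ a : MulAut F, ∀ w, ∀ᶠ n in atTop, u n w = a w := by
  choose f hf using h1
  choose g hg using h2
  refine ⟨⟨⟨f, g, ?_, ?_⟩, ?_⟩, hf⟩
  · intro w
    obtain ⟨n, hn1, hn2⟩ := ((hf w).and (hg (f w))).exists
    rw [← hn2, ← hn1]; simp
  · intro w
    obtain ⟨n, hn1, hn2⟩ := ((hg w).and (hf (g w))).exists
    rw [← hn2, ← hn1]; simp
  · intro x y
    obtain ⟨n, h1, h2, h3⟩ := ((hf x).and ((hf y).and (hf (x * y)))).exists
    simp only [← h1, ← h2, ← h3, map_mul]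

theorem wave_stab (s g : MulAut F) (H : Set F)
    (hs : ∀ h ∈ H, s⁻¹ h ∈ H) (hg : ∀ h ∈ H, g⁻¹ h = s⁻¹ h)
    (w : F) (N : ℕ) (hN : (s⁻¹ ^ N) w ∈ H) :
    ∀ᶠ n in atTop, (g ^ n * s⁻¹ ^ n) w = (g ^ N * s⁻¹ ^ N) w := by
  rw [eventually_atTop]
  refine ⟨N, fun n hn => ?_⟩
  have key : (s⁻¹ ^ n) w ∈ H ∧ (g ^ n * s⁻¹ ^ n) w = (g ^ N * s⁻¹ ^ N) w := by
    induction n, hn using Nat.le_induction with
    | base => exact ⟨hN, rfl⟩
    | succ n hn ih =>
      obtain ⟨ih1, ih2⟩ := ih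
      have e1 : (s⁻¹ ^ (n + 1)) w = s⁻¹ ((s⁻¹ ^ n) w) := by
        rw [pow_succ', MulAut.mul_apply]
      refine ⟨e1 ▸ hs _ ih1, ?_⟩
      rw [← ih2, MulAut.mul_apply, MulAut.mul_apply, e1, ← hg _ ih1, pow_succ, MulAut.mul_apply]
      simp
  exact key.2

/-- wave operator lemma -/
theorem wave (s g : MulAut F) (H : Set F)
    (hs : ∀ h ∈ H, s⁻¹ h ∈ H) (hg : ∀ h ∈ H, g⁻¹ h = s⁻¹ h)
    (hs' : ∀ w, ∃ n : ℕ, (s⁻¹ ^ n) w ∈ H) (hg' : ∀ w, ∃ n : ℕ, (g⁻¹ ^ n) w ∈ H) :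
    IsConj s g := by
  obtain ⟨a, ha⟩ := exists_limit (fun n => g ^ n * s⁻¹ ^ n)
    (fun w => by
      obtain ⟨N, hN⟩ := hs' w
      exact ⟨_, wave_stab s g H hs hg w N hN⟩)
    (fun w => by
      obtain ⟨N, hN⟩ := hg' w
      refine ⟨(s ^ N * g⁻¹ ^ N) w, (wave_stab g s H (fun h hh => (hg h hh) ▸ hs h hh)
        (fun h hh => (hg h hh).symm) w N hN).mono fun n hn => ?_⟩
      rw [← hn]
      congr 1
      simp [mul_inv_rev])
  rw [isConj_iff]
  refine ⟨a, ?_⟩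
  rw [mul_inv_eq_iff_eq_mul]
  ext w
  have h1 := (tendsto_add_atTop_nat 1).eventually (ha (s w))
  obtain ⟨n, hn1, hn2⟩ := (h1.and (ha w)).exists
  rw [MulAut.mul_apply, MulAut.mul_apply, ← hn1, ← hn2]
  simp only [MulAut.mul_apply]
  rw [pow_succ' g, pow_succ s⁻¹, MulAut.mul_apply, MulAut.mul_apply]
  simp

theorem descend (ψ : MulAut F) (K : ℕ → Set F) (h : ∀ n, ∀ w ∈ K (n + 1), ψ w ∈ K n)
    (n : ℕ) (w : F) (hw : w ∈ K n) : (ψ ^ n) w ∈ K 0 := by
  induction n generalizing w with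
  | zero => simpa using hw
  | succ n ih =>
    rw [pow_succ, MulAut.mul_apply]
    exact ih _ (h n w hw)

end General

section Free
variable {α : Type*}

/-- the free factor spanned by a set of basis elements -/
def Sp (A : Set α) : Subgroup (FreeGroup α) := Subgroup.closure (FreeGroup.of '' A)

theorem of_mem_Sp {A : Set α} {x : α} (hx : x ∈ A) : FreeGroup.of x ∈ Sp A :=
  Subgroup.subset_closure ⟨x, hx, rfl⟩

theorem Sp_mono {A B : Set α} (h : A ⊆ B) : Sp A ≤ Sp B :=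
  Subgroup.closure_mono (Set.image_mono h)

theorem map_Sp {G : Type*} [Group G] {φ : Type*} [FunLike φ (FreeGroup α) G]
    [MonoidHomClass φ (FreeGroup α) G] (f : φ) {A : Set α} (L : Subgroup G)
    (h : ∀ x ∈ A, f (FreeGroup.of x) ∈ L) : ∀ w ∈ Sp A, f w ∈ L := by
  intro w hw
  induction hw using Subgroup.closure_induction with
  | mem x hx =>
    obtain ⟨y, hy, rfl⟩ := hx
    exact h y hy
  | one => simp
  | mul x y _ _ hx hy => rw [map_mul]; exact L.mul_mem hx hy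
  | inv x _ hx => rw [map_inv]; exact L.inv_mem hx

theorem eq_on_Sp {G : Type*} [Group G] {φ : Type*} [FunLike φ (FreeGroup α) G]
    [MonoidHomClass φ (FreeGroup α) G] {φ' : Type*} [FunLike φ' (FreeGroup α) G]
    [MonoidHomClass φ' (FreeGroup α) G] (f : φ) (g : φ') {A : Set α}
    (h : ∀ x ∈ A, f (FreeGroup.of x) = g (FreeGroup.of x)) : ∀ w ∈ Sp A, f w = g w := by
  intro w hw
  induction hw using Subgroup.closure_induction with
  | mem x hx =>
    obtain ⟨y, hy, rfl⟩ := hx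
    exact h y hy
  | one => simp
  | mul x y _ _ hx hy => rw [map_mul, map_mul, hx, hy]
  | inv x _ hx => rw [map_inv, map_inv, hx]

theorem exists_support (w : FreeGroup α) : ∃ s : Set α, s.Finite ∧ w ∈ Sp s := by
  induction w using FreeGroup.induction_on with
  | C1 => exact ⟨∅, Set.finite_empty, Subgroup.one_mem _⟩
  | of x => exact ⟨{x}, Set.finite_singleton x, of_mem_Sp rfl⟩
  | inv_of x h =>
    obtain ⟨s, hs, h⟩ := h
    exact ⟨s, hs, Subgroup.inv_mem _ h⟩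
  | mul x y hx hy =>
    obtain ⟨s, hs, hx⟩ := hx
    obtain ⟨t, ht, hy⟩ := hy
    exact ⟨s ∪ t, hs.union ht, Subgroup.mul_mem _ (Sp_mono Set.subset_union_left hx)
      (Sp_mono Set.subset_union_right hy)⟩

theorem exists_level (f : α → ℤ) (w : FreeGroup α) :
    ∃ n : ℕ, w ∈ Sp {x | f x ≤ n} := by
  obtain ⟨s, hs, hw⟩ := exists_support w
  obtain ⟨b, hb⟩ := (hs.image f).bddAbove
  refine ⟨b.toNat, Sp_mono (fun x hx => ?_) hw⟩
  have := hb ⟨x, hx, rfl⟩
  show f x ≤ _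
  omega

/-- permutation automorphisms -/
def PA : Equiv.Perm α →* MulAut (FreeGroup α) where
  toFun e := FreeGroup.freeGroupCongr e
  map_one' := FreeGroup.freeGroupCongr_refl
  map_mul' e f := (FreeGroup.freeGroupCongr_trans f e).symm

@[simp] theorem PA_of (e : Equiv.Perm α) (x : α) :
    PA e (FreeGroup.of x) = FreeGroup.of (e x) := FreeGroup.map.of

end Free

end Pool.Agent.P.MP_8e22c2_al.T2

namespace Pool.Agent.P.MP_8e22c2_al.T2

open Filter Cardinal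

variable {α : Type}

theorem mk_int_prod [Infinite α] : #(ℤ × α) = #α := by
  simp

theorem mk_fiber_fst {β γ : Type} (n : β) : #{b : β × γ // b.1 = n} = #γ := by
  refine Cardinal.mk_congr ⟨fun b => b.1.2, fun a => ⟨(n, a), rfl⟩, ?_, ?_⟩
  · rintro ⟨⟨a, b⟩, rfl⟩; rfl
  · intro a; rfl

theorem exists_equiv_level (f : α → ℤ) (hf : ∀ n, #{x // f x = n} = #α) :
    ∃ c : α ≃ ℤ × α, ∀ x, (c x).1 = f x := by
  have e : ∀ n, {x // f x = n} ≃ {b : ℤ × α // b.1 = n} := fun n =>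
    (Cardinal.eq.1 ((hf n).trans (mk_fiber_fst n).symm)).some
  exact ⟨Equiv.ofFiberEquiv (f := f) (g := Prod.fst) e, fun x => Equiv.ofFiberEquiv_map e x⟩

/-- the shift attached to a coordinatisation of the basis -/
def shiftOf (c : α ≃ ℤ × α) : Equiv.Perm α :=
  c.trans ((Equiv.prodCongr (Equiv.addRight (1 : ℤ)) (Equiv.refl α)).trans c.symm)

theorem shiftOf_conj (c d : α ≃ ℤ × α) : IsConj (shiftOf c) (shiftOf d) := by
  rw [isConj_iff]
  refine ⟨c.trans d.symm, ?_⟩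
  ext x
  simp [shiftOf, Equiv.Perm.mul_apply, Equiv.Perm.inv_def]

theorem shiftOf_inv_level (c : α ≃ ℤ × α) (x : α) :
    (c ((shiftOf c)⁻¹ x)).1 = (c x).1 - 1 := by
  simp [shiftOf, Equiv.Perm.inv_def, sub_eq_add_neg]

end Pool.Agent.P.MP_8e22c2_al.T2

namespace Pool.Agent.P.MP_8e22c2_al.T2

open Filter Cardinal

variable {α : Type}

open Classical in
/-- transport an endomorphism along an injection of the basis, identity elsewhere -/
noncomputable def ext (j : α ↪ α) (ψ : FreeGroup α →* FreeGroup α) :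
    FreeGroup α →* FreeGroup α :=
  FreeGroup.lift fun x =>
    if h : ∃ y, j y = x then FreeGroup.map j (ψ (FreeGroup.of h.choose)) else FreeGroup.of x

theorem ext_of_not (j : α ↪ α) (ψ : FreeGroup α →* FreeGroup α) (x : α) (h : ¬ ∃ y, j y = x) :
    ext j ψ (FreeGroup.of x) = FreeGroup.of x := by
  rw [ext, FreeGroup.lift_apply_of, dif_neg h]

theorem ext_map (j : α ↪ α) (ψ : FreeGroup α →* FreeGroup α) (w : FreeGroup α) :
    ext j ψ (FreeGroup.map j w) = FreeGroup.map j (ψ w) := by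
  have : (ext j ψ).comp (FreeGroup.map j) = (FreeGroup.map j).comp ψ := by
    refine FreeGroup.ext_hom _ _ fun x => ?_
    have h : ∃ y, j y = j x := ⟨x, rfl⟩
    simp only [MonoidHom.comp_apply, FreeGroup.map.of]
    rw [ext, FreeGroup.lift_apply_of, dif_pos h, j.injective h.choose_spec]
  exact DFunLike.congr_fun this w

theorem ext_ext (j : α ↪ α) (ψ χ : FreeGroup α →* FreeGroup α) (h : ∀ w, ψ (χ w) = w)
    (w : FreeGroup α) : ext j ψ (ext j χ w) = w := by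
  have : (ext j ψ).comp (ext j χ) = MonoidHom.id _ := by
    refine FreeGroup.ext_hom _ _ fun x => ?_
    simp only [MonoidHom.comp_apply, MonoidHom.id_apply]
    by_cases hx : ∃ y, j y = x
    · obtain ⟨y, rfl⟩ := hx
      rw [← FreeGroup.map.of, ext_map, ext_map, h]
    · rw [ext_of_not _ _ _ hx, ext_of_not _ _ _ hx]
  exact DFunLike.congr_fun this w

theorem exists_ext (j : α ↪ α) (φ : MulAut (FreeGroup α)) :
    ∃ β : MulAut (FreeGroup α), (∀ w, β (FreeGroup.map j w) = FreeGroup.map j (φ w)) ∧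
      ∀ x, (¬ ∃ y, j y = x) → β (FreeGroup.of x) = FreeGroup.of x := by
  refine ⟨⟨⟨ext j φ.toMonoidHom, ext j φ.symm.toMonoidHom, ?_, ?_⟩, ?_⟩, ?_, ?_⟩
  · exact ext_ext j _ _ (by simp)
  · exact ext_ext j _ _ (by simp)
  · exact map_mul _
  · exact ext_map j _
  · exact ext_of_not j _

theorem exists_emb [Infinite α] (A : Set α) (hA : #(Aᶜ : Set α) = #α) :
    ∃ (j : α ↪ α) (Z : Set α), Z ⊆ Aᶜ ∧ #Z = #α ∧ (∀ x ∈ A, j x = x) ∧
      ∀ x ∈ Z, ¬ ∃ y, j y = x := by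
  classical
  have h1 : #((Aᶜ : Set α) ⊕ (Aᶜ : Set α)) = #(Aᶜ : Set α) := by
    rw [Cardinal.mk_sum, Cardinal.lift_id, hA]
    exact Cardinal.add_eq_self (Cardinal.aleph0_le_mk α)
  obtain ⟨e⟩ := Cardinal.eq.1 h1
  refine ⟨⟨fun x => if h : x ∈ A then x else (e (Sum.inl ⟨x, h⟩)).1, ?_⟩,
    Set.range fun y => (e (Sum.inr y)).1, ?_, ?_, ?_, ?_⟩
  · intro x y hxy
    by_cases hx : x ∈ A <;> by_cases hy : y ∈ A <;> simp only [hx, hy, dite_true, dite_false] at hxy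
    · exact hxy
    · exact absurd (hxy ▸ hx) (e (Sum.inl ⟨y, hy⟩)).2
    · exact absurd (hxy ▸ hy) (e (Sum.inl ⟨x, hx⟩)).2
    · have := e.injective (Subtype.ext hxy)
      simpa using this
  · rintro _ ⟨y, rfl⟩
    exact (e (Sum.inr y)).2
  · rw [Cardinal.mk_range_eq, hA]
    intro a b hab
    have := e.injective (Subtype.ext hab)
    simpa using this
  · intro x hx
    exact dif_pos hx
  · rintro _ ⟨y, rfl⟩ ⟨x, hx⟩
    replace hx : (if h : x ∈ A then x else (e (Sum.inl ⟨x, h⟩)).1) = (e (Sum.inr y)).1 := hx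
    by_cases h : x ∈ A
    · rw [dif_pos h] at hx
      exact (e (Sum.inr y)).2 (hx ▸ h)
    · rw [dif_neg h] at hx
      have := e.injective (Subtype.ext hx)
      simp at this

/-- relabelling trick -/
theorem relabel [Infinite α] (φ : MulAut (FreeGroup α)) (A : Set α) (hA : #(Aᶜ : Set α) = #α) :
    ∃ (β : MulAut (FreeGroup α)) (Z : Set α), Z ⊆ Aᶜ ∧ #Z = #α ∧
      (∀ x ∈ Z, β (FreeGroup.of x) = FreeGroup.of x) ∧
      ∀ x ∈ A, φ (FreeGroup.of x) ∈ Sp A → β (FreeGroup.of x) = φ (FreeGroup.of x) := by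
  obtain ⟨j, Z, hZ, hZc, hj, hjZ⟩ := exists_emb A hA
  obtain ⟨β, hβ, hβ'⟩ := exists_ext j φ
  refine ⟨β, Z, hZ, hZc, fun x hx => hβ' x (hjZ x hx), fun x hx hφ => ?_⟩
  have h1 : ∀ w ∈ Sp A, FreeGroup.map j w = MonoidHom.id _ w :=
    eq_on_Sp _ _ fun y hy => by simp [hj y hy]
  have h2 := hβ (FreeGroup.of x)
  rw [h1 _ hφ, h1 _ (of_mem_Sp hx)] at h2
  exact h2

theorem exists_large_small [Uncountable α] (f : α → Set α) (hf : ∀ x, (f x).Finite) :
    ∃ Y A : Set α, #Y = #α ∧ #(Aᶜ : Set α) = #α ∧ ∀ y ∈ Y, f y ⊆ A := by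
  have hprod : #α = #(α × α) := by simp
  obtain ⟨e⟩ := Cardinal.eq.1 hprod
  let Y : α → Set α := fun ξ => {x | f x ⊆ {z | (e z).1 ≠ ξ}}
  have hA : ∀ ξ, #(({z | (e z).1 ≠ ξ} : Set α)ᶜ : Set α) = #α := by
    intro ξ
    rw [← mk_fiber_fst (γ := α) ξ]
    refine Cardinal.mk_congr (e.subtypeEquiv fun a => ?_)
    simp
  suffices h : ∃ ξ, #(Y ξ) = #α by
    obtain ⟨ξ, hξ⟩ := h
    exact ⟨Y ξ, _, hξ, hA ξ, fun y hy => hy⟩
  by_contra hcon
  push Not at hcon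
  have hlt : ∀ ξ, #(Y ξ) < #α := fun ξ => lt_of_le_of_ne (Cardinal.mk_set_le _) (hcon ξ)
  have hdown : ∃ ξ₀, {ξ | #(Y ξ) ≤ #(Y ξ₀)}.Infinite := by
    by_contra hfin
    push Not at hfin
    let u : ℕ ↪ α := Infinite.natEmbedding α
    have hc : (⋃ i, {ξ | #(Y ξ) ≤ #(Y (u i))}).Countable :=
      Set.countable_iUnion fun i => (hfin _).countable
    obtain ⟨ξ, hξ⟩ : ∃ ξ, ξ ∉ ⋃ i, {ξ | #(Y ξ) ≤ #(Y (u i))} := by
      by_contra h
      push Not at h
      exact Set.not_countable_univ (hc.mono fun x _ => h x)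
    simp only [Set.mem_iUnion, not_exists] at hξ
    refine (Set.infinite_range_of_injective u.injective) ((hfin ξ).subset ?_)
    rintro _ ⟨i, rfl⟩
    exact le_of_lt (not_le.1 (show ¬ (#(Y ξ) ≤ #(Y (u i))) from hξ i))
  obtain ⟨ξ₀, hξ₀⟩ := hdown
  let u := hξ₀.natEmbedding
  have hcov : (Set.univ : Set α) = ⋃ i, Y (u i).1 := by
    refine (Set.eq_univ_of_forall fun x => ?_).symm
    by_contra h
    simp only [Set.mem_iUnion, not_exists] at h
    have hinj : Function.Injective fun i => (u i).1 :=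
      Subtype.val_injective.comp u.injective
    refine (Set.infinite_range_of_injective hinj) (((hf x).image fun z => (e z).1).subset ?_)
    rintro _ ⟨i, rfl⟩
    have := h i
    simp only [Y, Set.mem_ofPred_eq, Set.not_subset, not_not] at this
    obtain ⟨z, hz, hz'⟩ := this
    exact ⟨z, hz, hz'⟩
  have h1 : #α ≤ ℵ₀ * #(Y ξ₀) := by
    rw [← Cardinal.mk_univ, hcov]
    refine (Cardinal.mk_iUnion_le _).trans ?_
    rw [Cardinal.mk_nat]
    gcongr
    exact ciSup_le' fun i => (u i).2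
  have h2 : ℵ₀ * #(Y ξ₀) < #α :=
    Cardinal.mul_lt_of_lt (Cardinal.aleph0_le_mk α) Cardinal.aleph0_lt_mk (hlt ξ₀)
  exact absurd h1 (not_le.2 h2)

/-- The factorisation property. -/
def Fac (φ : MulAut (FreeGroup α)) : Prop :=
  ∃ (β : MulAut (FreeGroup α)) (Z Y : Set α), #Z = #α ∧ #Y = #α ∧
    (∀ x ∈ Z, β (FreeGroup.of x) = FreeGroup.of x) ∧
    ∀ x ∈ Y, β (FreeGroup.of x) = φ (FreeGroup.of x)

theorem fac_uncountable [Uncountable α] (φ : MulAut (FreeGroup α)) : Fac φ := by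
  choose s hs hs' using fun x => exists_support (φ (FreeGroup.of x))
  obtain ⟨Y, A, hY, hA, h⟩ := exists_large_small (fun x => insert x (s x))
    (fun x => (hs x).insert x)
  obtain ⟨β, Z, -, hZ, h1, h2⟩ := relabel φ A hA
  exact ⟨β, Z, Y, hZ, hY, h1, fun x hx => h2 x (h x hx (Set.mem_insert _ _))
    (Sp_mono ((Set.subset_insert _ _).trans (h x hx)) (hs' x))⟩

theorem new_fixed [Infinite α] (β : MulAut (FreeGroup α)) (D : Set α) (hD : D.Finite) :
    ∃ (β' : MulAut (FreeGroup α)) (y : α), y ∉ D ∧ β' (FreeGroup.of y) = FreeGroup.of y ∧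
      ∀ x ∈ D, β' (FreeGroup.of x) = β (FreeGroup.of x) := by
  choose s hs hs' using fun x => exists_support (β (FreeGroup.of x))
  have hfin : (D ∪ ⋃ x ∈ D, s x).Finite := hD.union (hD.biUnion fun x _ => hs x)
  obtain ⟨β', Z, hZ, hZc, h1, h2⟩ := relabel β (D ∪ ⋃ x ∈ D, s x)
    (Cardinal.mk_compl_of_infinite _
      (hfin.lt_aleph0.trans_le (Cardinal.aleph0_le_mk α)))
  obtain ⟨y, hy⟩ : Z.Nonempty := by
    rw [← Set.nonempty_coe_sort, ← Cardinal.mk_ne_zero_iff, hZc]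
    exact Cardinal.mk_ne_zero α
  refine ⟨β', y, fun h => hZ hy (Or.inl h), h1 y hy, fun x hx => h2 x (Or.inl hx) ?_⟩
  exact Sp_mono (fun z hz => Or.inr (Set.mem_biUnion hx hz)) (hs' x)

theorem step [Infinite α] (φ β : MulAut (FreeGroup α)) (D : Set α) (hD : D.Finite) (a : α) :
    ∃ (β' : MulAut (FreeGroup α)) (D' : Set α), D'.Finite ∧ D ⊆ D' ∧
      (∀ x ∈ D, β' (FreeGroup.of x) = β (FreeGroup.of x)) ∧ a ∈ D' ∧
      β'⁻¹ (FreeGroup.of a) ∈ Sp D' ∧
      (∃ y ∈ D', y ∉ D ∧ β' (FreeGroup.of y) = FreeGroup.of y) ∧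
      (∃ y ∈ D', y ∉ D ∧ β' (FreeGroup.of y) = φ (FreeGroup.of y)) := by
  obtain ⟨β₁, y₁, hy₁, h1, h1'⟩ := new_fixed β D hD
  obtain ⟨β₂, y₂, hy₂, h2, h2'⟩ := new_fixed (φ⁻¹ * β₁) (insert y₁ D) (hD.insert _)
  obtain ⟨s, hs, hs'⟩ := exists_support ((φ * β₂)⁻¹ (FreeGroup.of a))
  have h3 : ∀ x ∈ insert y₁ D, (φ * β₂) (FreeGroup.of x) = β₁ (FreeGroup.of x) := by
    intro x hx
    rw [MulAut.mul_apply, h2' x hx]
    simp
  refine ⟨φ * β₂, insert a (insert y₂ (insert y₁ D)) ∪ s,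
    (((hD.insert _).insert _).insert _).union hs, ?_, ?_, ?_, ?_, ⟨y₁, ?_, hy₁, ?_⟩,
    ⟨y₂, ?_, ?_, ?_⟩⟩
  · intro x hx
    simp [hx]
  · intro x hx
    rw [h3 x (Set.mem_insert_of_mem _ hx), h1' x hx]
  · simp
  · exact Sp_mono Set.subset_union_right hs'
  · simp
  · rw [h3 _ (Set.mem_insert _ _), h1]
  · simp
  · exact fun h => hy₂ (Set.mem_insert_of_mem _ h)
  · rw [MulAut.mul_apply, h2]

theorem fac_countable [Infinite α] [Countable α] (φ : MulAut (FreeGroup α)) : Fac φ := by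
  obtain ⟨a, ha⟩ := exists_surjective_nat α
  choose B E hE using step φ
  let st : ℕ → MulAut (FreeGroup α) × {D : Set α // D.Finite} := fun n =>
    Nat.rec (1, ⟨∅, Set.finite_empty⟩)
      (fun n p => (B p.1 p.2.1 p.2.2 (a n), ⟨E p.1 p.2.1 p.2.2 (a n), (hE _ _ _ _).1⟩)) n
  let β : ℕ → MulAut (FreeGroup α) := fun n => (st n).1
  let D : ℕ → Set α := fun n => (st n).2.1
  have hD : ∀ n, (D n).Finite := fun n => (st n).2.2
  have H : ∀ n, D n ⊆ D (n + 1) ∧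
      (∀ x ∈ D n, β (n + 1) (FreeGroup.of x) = β n (FreeGroup.of x)) ∧ a n ∈ D (n + 1) ∧
      (β (n + 1))⁻¹ (FreeGroup.of (a n)) ∈ Sp (D (n + 1)) ∧
      (∃ y ∈ D (n + 1), y ∉ D n ∧ β (n + 1) (FreeGroup.of y) = FreeGroup.of y) ∧
      (∃ y ∈ D (n + 1), y ∉ D n ∧ β (n + 1) (FreeGroup.of y) = φ (FreeGroup.of y)) :=
    fun n => (hE (β n) (D n) (hD n) (a n)).2
  clear_value β D
  clear st hE
  have mono : Monotone D := monotone_nat_of_le_succ fun n => (H n).1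
  have stab : ∀ n m, n ≤ m → ∀ w ∈ Sp (D n), β m w = β n w := by
    intro n m hnm
    refine eq_on_Sp _ _ fun x hx => ?_
    induction m, hnm using Nat.le_induction with
    | base => rfl
    | succ m hm ih => rw [(H m).2.1 x (mono hm hx), ih]
  have lim : ∀ u : ℕ → MulAut (FreeGroup α),
      (∀ x, ∃ v, ∀ᶠ n in atTop, u n (FreeGroup.of x) = v) →
      ∀ w, ∃ v, ∀ᶠ n in atTop, u n w = v := by
    intro u hu w
    induction w using FreeGroup.induction_on with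
    | C1 => exact ⟨1, Eventually.of_forall fun n => map_one _⟩
    | of x => exact hu x
    | inv_of x h =>
      obtain ⟨v, hv⟩ := h
      exact ⟨v⁻¹, hv.mono fun n hn => by rw [map_inv, hn]⟩
    | mul x y hx hy =>
      obtain ⟨v, hv⟩ := hx
      obtain ⟨v', hv'⟩ := hy
      exact ⟨v * v', (hv.and hv').mono fun n hn => by rw [map_mul, hn.1, hn.2]⟩
  obtain ⟨b, hb⟩ := exists_limit β
    (lim β fun x => by
      obtain ⟨n, rfl⟩ := ha x
      exact ⟨_, eventually_atTop.2 ⟨n + 1, fun m hm =>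
        stab (n + 1) m hm _ (of_mem_Sp (H n).2.2.1)⟩⟩)
    (lim (fun n => (β n)⁻¹) fun x => by
      obtain ⟨n, rfl⟩ := ha x
      refine ⟨(β (n + 1))⁻¹ (FreeGroup.of (a n)), eventually_atTop.2 ⟨n + 1, fun m hm => ?_⟩⟩
      rw [MulAut.inv_apply, MulEquiv.symm_apply_eq, stab (n + 1) m hm _ (H n).2.2.2.1]
      simp)
  have hbD : ∀ n, ∀ x ∈ D n, b (FreeGroup.of x) = β n (FreeGroup.of x) := by
    intro n x hx
    obtain ⟨m, hm1, hm2⟩ := ((hb (FreeGroup.of x)).and (eventually_ge_atTop n)).exists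
    rw [← hm1, stab n m hm2 _ (of_mem_Sp hx)]
  have big : ∀ P : α → Prop, (∀ n, ∃ y, y ∉ D n ∧ P y) → #{y | P y} = #α := by
    intro P hP
    have hinf : {y | P y}.Infinite := by
      intro hfin
      have : ∃ n, {y | P y} ⊆ D n := by
        have h1 : ∀ y ∈ {y | P y}, ∀ᶠ n in atTop, y ∈ D n := by
          intro y _
          obtain ⟨k, rfl⟩ := ha y
          exact eventually_atTop.2 ⟨k + 1, fun m hm => mono hm (H k).2.2.1⟩
        exact ((eventually_all_finite hfin).2 h1).exists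
      obtain ⟨n, hn⟩ := this
      obtain ⟨y, hy, hy'⟩ := hP n
      exact hy (hn hy')
    have := hinf.to_subtype
    rw [Cardinal.mk_eq_aleph0, Cardinal.mk_eq_aleph0]
  refine ⟨b, {y | b (FreeGroup.of y) = FreeGroup.of y},
    {y | b (FreeGroup.of y) = φ (FreeGroup.of y)}, big _ fun n => ?_, big _ fun n => ?_,
    fun x hx => hx, fun x hx => hx⟩
  · obtain ⟨y, hy, hy', hy''⟩ := (H n).2.2.2.2.1
    exact ⟨y, hy', by rw [hbD _ y hy, hy'']⟩
  · obtain ⟨y, hy, hy', hy''⟩ := (H n).2.2.2.2.2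
    exact ⟨y, hy', by rw [hbD _ y hy, hy'']⟩

end Pool.Agent.P.MP_8e22c2_al.T2

namespace Pool.Agent.P.MP_8e22c2_al.T2

open Filter Cardinal

variable {α : Type}

/-- a set of full size carries a level function all of whose fibres have full size -/
theorem exists_levels [Infinite α] (B : Set α) (hB : #B = #α) :
    ∃ q : α → ℕ, ∀ n, #{y : B // q y.1 = n} = #α := by
  classical
  obtain ⟨e⟩ : Nonempty (B ≃ ℕ × α) := Cardinal.eq.1 (hB.trans (by simp))
  refine ⟨fun x => if h : x ∈ B then (e ⟨x, h⟩).1 else 0, fun n => ?_⟩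
  rw [← mk_fiber_fst (γ := α) n]
  refine Cardinal.mk_congr (e.subtypeEquiv fun a => ?_)
  simp [a.2]

/-- one half of the permutation -/
theorem exists_half [Infinite α] (A B W : Set α) (hB : #B = #α) (hW : #W = #α)
    (hWA : ∀ x ∈ W, x ∉ A) (S : α → Set α) (hS : ∀ x, (S x).Finite)
    (hSW : ∀ x ∈ W, ∀ y ∈ S x, y ∉ B) :
    ∃ (f : (Aᶜ : Set α) ≃ B) (p : α → ℕ),
      ∀ x, ∀ y ∈ S x, ∀ h : y ∈ B, p (f.symm ⟨y, h⟩).1 < p x := by
  classical
  obtain ⟨q, hq⟩ := exists_levels B hB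
  obtain ⟨r, hr⟩ := exists_levels W hW
  have hb : ∀ x, ∃ b : ℕ, ∀ y ∈ S x, q y < b := fun x => by
    obtain ⟨b, hb⟩ := ((hS x).image q).bddAbove
    exact ⟨b + 1, fun y hy => Nat.lt_succ_of_le (hb ⟨y, hy, rfl⟩)⟩
  choose b hb using hb
  let p : α → ℕ := fun x => if x ∈ W then r x else b x
  have hp : ∀ n, #{x : (Aᶜ : Set α) // p x.1 = n} = #α := by
    intro n
    refine le_antisymm ((Cardinal.mk_subtype_le _).trans (Cardinal.mk_set_le _)) ?_
    rw [← hr n]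
    refine Cardinal.mk_le_of_injective
      (f := fun a => ⟨⟨a.1.1, hWA _ a.1.2⟩, by simp only [p]; rw [if_pos a.1.2]; exact a.2⟩) ?_
    intro a c hac
    have h1 : a.1.1 = c.1.1 := by simpa only [Subtype.mk.injEq] using hac
    exact Subtype.ext (Subtype.ext h1)
  have e : ∀ n, {x : (Aᶜ : Set α) // p x.1 = n} ≃ {y : B // q y.1 = n} := fun n =>
    (Cardinal.eq.1 ((hp n).trans (hq n).symm)).some
  let f : (Aᶜ : Set α) ≃ B :=
    Equiv.ofFiberEquiv (f := fun x : (Aᶜ : Set α) => p x.1) (g := fun y : B => q y.1) e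
  have hf : ∀ x, q (f x).1 = p x.1 := fun x => Equiv.ofFiberEquiv_map e x
  refine ⟨f, p, fun x y hy h => ?_⟩
  have h1 := hf (f.symm ⟨y, h⟩)
  rw [Equiv.apply_symm_apply] at h1
  rw [← h1]
  have hx : x ∉ W := fun hx => hSW x hx y hy h
  simp only [p, if_neg hx]
  exact hb x y hy

/-- gluing the two halves -/
theorem exists_glue (A B : Set α) (f : (Aᶜ : Set α) ≃ B) (g : (Bᶜ : Set α) ≃ A) :
    ∃ σ : Equiv.Perm α, (∀ y (h : y ∈ B), σ⁻¹ y = (f.symm ⟨y, h⟩).1) ∧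
      (∀ x (h : x ∈ A), σ x = (g.symm ⟨x, h⟩).1) ∧ ∀ x, σ x ∈ B ↔ x ∉ A := by
  classical
  let σ : Equiv.Perm α :=
    { toFun := fun x => if h : x ∈ A then (g.symm ⟨x, h⟩).1 else (f ⟨x, h⟩).1
      invFun := fun y => if h : y ∈ B then (f.symm ⟨y, h⟩).1 else (g ⟨y, h⟩).1
      left_inv := fun x => by
        by_cases h : x ∈ A
        · have h' : (g.symm ⟨x, h⟩).1 ∉ B := (g.symm ⟨x, h⟩).2
          simp only [dif_pos h, dif_neg h']
          have : (⟨(g.symm ⟨x, h⟩).1, h'⟩ : (Bᶜ : Set α)) = g.symm ⟨x, h⟩ := rfl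
          rw [this, Equiv.apply_symm_apply]
        · have h' : (f ⟨x, h⟩).1 ∈ B := (f ⟨x, h⟩).2
          simp only [dif_neg h, dif_pos h']
          have : (⟨(f ⟨x, h⟩).1, h'⟩ : B) = f ⟨x, h⟩ := rfl
          rw [this, Equiv.symm_apply_apply]
      right_inv := fun y => by
        by_cases h : y ∈ B
        · have h' : (f.symm ⟨y, h⟩).1 ∉ A := (f.symm ⟨y, h⟩).2
          simp only [dif_pos h, dif_neg h']
          have : (⟨(f.symm ⟨y, h⟩).1, h'⟩ : (Aᶜ : Set α)) = f.symm ⟨y, h⟩ := rfl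
          rw [this, Equiv.apply_symm_apply]
        · have h' : (g ⟨y, h⟩).1 ∈ A := (g ⟨y, h⟩).2
          simp only [dif_neg h, dif_pos h']
          have : (⟨(g ⟨y, h⟩).1, h'⟩ : A) = g ⟨y, h⟩ := rfl
          rw [this, Equiv.symm_apply_apply] }
  refine ⟨σ, fun y h => dif_pos h, fun x h => dif_pos h, fun x => ?_⟩
  by_cases h : x ∈ A
  · have h1 : σ x = (g.symm ⟨x, h⟩).1 := dif_pos h
    rw [h1]
    exact ⟨fun hb => absurd hb (g.symm ⟨x, h⟩).2, fun hx => absurd h hx⟩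
  · have h1 : σ x = (f ⟨x, h⟩).1 := dif_neg h
    rw [h1]
    exact ⟨fun _ => h, fun _ => (f ⟨x, h⟩).2⟩

theorem exists_plevel (p : α → ℕ) (A : Set α) (w : FreeGroup α) :
    ∃ n : ℕ, w ∈ Sp (A ∪ {x | p x < n}) := by
  obtain ⟨s, hs, hw⟩ := exists_support w
  obtain ⟨b, hb⟩ := (hs.image p).bddAbove
  exact ⟨b + 1, Sp_mono (fun x hx => Or.inr (Nat.lt_succ_of_le (hb ⟨x, hx, rfl⟩))) hw⟩

theorem fall (u : Equiv.Perm α) (A B : Set α) (hAB : ∀ x ∈ A, x ∉ B)
    (hu : ∀ y, y ∉ B → u y ∈ A) (τ : MulAut (FreeGroup α))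
    (hτ : ∀ x ∈ A, τ (FreeGroup.of x) = FreeGroup.of x) (S : α → Set α)
    (hS : ∀ x, τ (FreeGroup.of x) ∈ Sp (S x)) (p : α → ℕ)
    (hp : ∀ x, ∀ y ∈ S x, y ∈ B → p (u y) < p x) (w : FreeGroup α) :
    ∃ n : ℕ, ((PA u * τ) ^ n) w ∈ (Sp A : Set (FreeGroup α)) := by
  obtain ⟨n, hn⟩ := exists_plevel p A w
  refine ⟨n, ?_⟩
  have := descend (PA u * τ) (fun n : ℕ => (Sp (A ∪ {x | p x < n}) : Set (FreeGroup α)))
    (fun m => map_Sp _ _ fun x hx => ?_) n w hn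
  · simpa using this
  · rw [MulAut.mul_apply]
    rcases hx with hx | hx
    · rw [hτ x hx, PA_of]
      exact of_mem_Sp (Or.inl (hu x (hAB x hx)))
    · refine map_Sp _ _ (fun y hy => ?_) _ (hS x)
      rw [PA_of]
      by_cases h : y ∈ B
      · refine of_mem_Sp (Or.inr ?_)
        have h1 := hp x y hy h
        have h2 : p x < m + 1 := hx
        show p _ < m
        omega
      · exact of_mem_Sp (Or.inl (hu y h))

/-- one-sided absorption -/
theorem absorb (u : Equiv.Perm α) (A B : Set α) (hAB : ∀ x ∈ A, x ∉ B)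
    (hu : ∀ y, y ∉ B → u y ∈ A) (τ : MulAut (FreeGroup α))
    (hτ : ∀ x ∈ A, τ (FreeGroup.of x) = FreeGroup.of x) (S : α → Set α)
    (hS : ∀ x, τ (FreeGroup.of x) ∈ Sp (S x)) (hx : ∀ x, x ∈ S x) (p : α → ℕ)
    (hp : ∀ x, ∀ y ∈ S x, y ∈ B → p (u y) < p x) :
    IsConj (PA u) (PA u * τ) := by
  have h := wave (PA u)⁻¹ (PA u * τ)⁻¹ (Sp A : Set (FreeGroup α)) ?_ ?_ ?_ ?_
  · obtain ⟨c, hc⟩ := isConj_iff.1 h
    refine isConj_iff.2 ⟨c, ?_⟩
    have := congrArg (fun z => z⁻¹) hc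
    simpa [mul_assoc] using this
  · rw [inv_inv]
    refine map_Sp _ _ fun x hx => ?_
    rw [PA_of]
    exact of_mem_Sp (hu x (hAB x hx))
  · rw [inv_inv, inv_inv]
    refine eq_on_Sp _ _ fun x hx => ?_
    rw [MulAut.mul_apply, hτ x hx]
  · intro w
    have := fall u A B hAB hu 1 (fun _ _ => rfl) S (fun x => of_mem_Sp (hx x)) p hp w
    simpa using this
  · intro w
    rw [inv_inv]
    exact fall u A B hAB hu τ hτ S hS p hp w

/-- a permutation with a fundamental domain of full size is a shift -/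
theorem is_shift (σ : Equiv.Perm α) (A B : Set α) (hAB : ∀ x ∈ A, x ∉ B)
    (hσ : ∀ x, σ x ∈ B ↔ x ∉ A) (p p' : α → ℕ) (hp : ∀ y ∈ B, p (σ⁻¹ y) < p y)
    (hp' : ∀ x ∈ A, p' (σ x) < p' x) (hM : #((A ∪ B)ᶜ : Set α) = #α) :
    ∃ c : α ≃ ℤ × α, σ = shiftOf c := by
  obtain ⟨e⟩ := Cardinal.eq.1 hM
  let G : ℤ × ((A ∪ B)ᶜ : Set α) → α := fun t => (σ ^ t.1) t.2.1
  have up : ∀ (k : ℕ) x, x ∉ A → (σ ^ (k + 1)) x ∈ B := by
    intro k
    induction k with
    | zero => intro x hx; simpa using (hσ x).2 hx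
    | succ k ih =>
      intro x hx
      rw [pow_succ', Equiv.Perm.mul_apply, hσ]
      exact fun h => hAB _ h (ih x hx)
  have key : ∀ (n n' : ℤ) (m m' : ((A ∪ B)ᶜ : Set α)), n < n' → (σ ^ n) m.1 ≠ (σ ^ n') m'.1 := by
    intro n n' m m' hlt h
    obtain ⟨k, hk⟩ : ∃ k : ℕ, n' = n + ((k + 1 : ℕ) : ℤ) := ⟨(n' - n - 1).toNat, by omega⟩
    rw [hk, zpow_add, Equiv.Perm.mul_apply, zpow_natCast] at h
    have h1 := (σ ^ n).injective h
    have h2 := up k m'.1 (fun ha => m'.2 (Or.inl ha))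
    exact m.2 (Or.inr (h1 ▸ h2))
  have inj : Function.Injective G := by
    rintro ⟨n, m⟩ ⟨n', m'⟩ h
    rcases lt_trichotomy n n' with hl | rfl | hl
    · exact absurd h (key n n' m m' hl)
    · have : m.1 = m'.1 := (σ ^ n).injective h
      rw [Subtype.ext this]
    · exact absurd h.symm (key n' n m' m hl)
  have stepU : ∀ y, σ⁻¹ y ∈ Set.range G → y ∈ Set.range G := by
    rintro y ⟨⟨n, m⟩, h⟩
    refine ⟨(1 + n, m), ?_⟩
    show (σ ^ (1 + n)) m.1 = y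
    have h' : (σ ^ n) m.1 = σ⁻¹ y := h
    rw [zpow_add, Equiv.Perm.mul_apply, h']
    simp
  have stepD : ∀ y, σ y ∈ Set.range G → y ∈ Set.range G := by
    rintro y ⟨⟨n, m⟩, h⟩
    refine ⟨(-1 + n, m), ?_⟩
    show (σ ^ (-1 + n)) m.1 = y
    have h' : (σ ^ n) m.1 = σ y := h
    rw [zpow_add, Equiv.Perm.mul_apply, h']
    simp
  have mid : ∀ y, y ∉ A → y ∉ B → y ∈ Set.range G := fun y h1 h2 =>
    ⟨(0, ⟨y, fun h => h.elim h1 h2⟩), by simp [G]⟩
  have hB : ∀ n, ∀ y ∈ B, p y = n → y ∈ Set.range G := by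
    intro n
    induction n using Nat.strong_induction_on with
    | _ n ih =>
      intro y hy hn
      refine stepU y ?_
      by_cases h : σ⁻¹ y ∈ B
      · exact ih _ (hn ▸ hp y hy) _ h rfl
      · refine mid _ ((hσ _).1 ?_) h
        simpa using hy
  have hA : ∀ n, ∀ y ∈ A, p' y = n → y ∈ Set.range G := by
    intro n
    induction n using Nat.strong_induction_on with
    | _ n ih =>
      intro y hy hn
      refine stepD y ?_
      by_cases h : σ y ∈ A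
      · exact ih _ (hn ▸ hp' y hy) _ h rfl
      · exact mid _ h (fun hb => (hσ y).1 hb hy)
  have surj : Function.Surjective G := by
    intro y
    by_cases h1 : y ∈ A
    · exact hA _ y h1 rfl
    · by_cases h2 : y ∈ B
      · exact hB _ y h2 rfl
      · exact mid y h1 h2
  let E := Equiv.ofBijective G ⟨inj, surj⟩
  refine ⟨E.symm.trans (Equiv.prodCongr (Equiv.refl ℤ) e), ?_⟩
  ext x
  obtain ⟨⟨n, m⟩, rfl⟩ := E.surjective x
  have h1 : shiftOf (E.symm.trans (Equiv.prodCongr (Equiv.refl ℤ) e)) (E (n, m)) =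
      E (n + 1, m) := by
    simp [shiftOf]
  rw [h1]
  show σ ((σ ^ n) m.1) = (σ ^ (n + 1)) m.1
  rw [add_comm, zpow_add, Equiv.Perm.mul_apply]
  simp

theorem split2 [Infinite α] (T : Set α) (hT : #T = #α) :
    ∃ U V : Set α, U ⊆ T ∧ V ⊆ T ∧ #U = #α ∧ #V = #α ∧ ∀ x ∈ U, x ∉ V := by
  obtain ⟨q, hq⟩ := exists_levels T hT
  have h : ∀ n, #{x | x ∈ T ∧ q x = n} = #α := fun n => by
    rw [← hq n]
    exact Cardinal.mk_congr (Equiv.subtypeSubtypeEquivSubtypeInter (· ∈ T) (q · = n)).symm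
  refine ⟨_, _, fun x hx => hx.1, fun x hx => hx.1, h 0, h 1, fun x hx hx' => ?_⟩
  have h1 := hx.2
  have h2 := hx'.2
  omega

theorem split_pair [Infinite α] (Z Y : Set α) (hZ : #Z = #α) (hY : #Y = #α) :
    ∃ U V : Set α, U ⊆ Z ∧ V ⊆ Y ∧ #U = #α ∧ #V = #α ∧ ∀ x ∈ U, x ∉ V := by
  by_cases h : #(Z ∩ Y : Set α) = #α
  · obtain ⟨U, V, h1, h2, h3⟩ := split2 _ h
    exact ⟨U, V, h1.trans Set.inter_subset_left, h2.trans Set.inter_subset_right, h3⟩
  · have hlt : #(Z ∩ Y : Set α) < #α := lt_of_le_of_ne (Cardinal.mk_set_le _) h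
    have big : ∀ T T' : Set α, #T = #α → T ⊆ T' ∪ (Z ∩ Y) → #T' = #α := by
      intro T T' hT hsub
      by_contra hne
      have hlt' : #T' < #α := lt_of_le_of_ne (Cardinal.mk_set_le _) hne
      have h1 := (Cardinal.mk_le_mk_of_subset hsub).trans (Cardinal.mk_union_le _ _)
      have h2 := Cardinal.add_lt_of_lt (Cardinal.aleph0_le_mk α) hlt' hlt
      exact absurd (hT ▸ h1) (not_le.2 h2)
    refine ⟨Z \ Y, Y \ Z, Set.sdiff_subset, Set.sdiff_subset, big Z _ hZ fun x hx => ?_,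
      big Y _ hY fun x hx => ?_, fun x hx hx' => hx.2 hx'.1⟩
    · by_cases hy : x ∈ Y
      · exact Or.inr ⟨hx, hy⟩
      · exact Or.inl ⟨hx, hy⟩
    · by_cases hy : x ∈ Z
      · exact Or.inr ⟨hy, hx⟩
      · exact Or.inl ⟨hx, hy⟩

theorem shiftOf_inv (c : α ≃ ℤ × α) :
    (shiftOf c)⁻¹ = shiftOf (c.trans (Equiv.prodCongr (Equiv.neg ℤ) (Equiv.refl α))) := by
  rw [inv_eq_iff_mul_eq_one]
  ext x
  obtain ⟨⟨n, a⟩, rfl⟩ := c.symm.surjective x
  simp [shiftOf, Equiv.Perm.mul_apply]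

theorem fac_all [Infinite α] (φ : MulAut (FreeGroup α)) : Fac φ := by
  by_cases h : Countable α
  · exact fac_countable φ
  · have : Uncountable α := ⟨h⟩
    exact fac_uncountable φ

/-- support sets containing the letter itself -/
theorem exists_S (τ : MulAut (FreeGroup α)) :
    ∃ S : α → Set α, (∀ x, (S x).Finite) ∧ (∀ x, τ (FreeGroup.of x) ∈ Sp (S x)) ∧
      (∀ x, x ∈ S x) ∧ ∀ x, τ (FreeGroup.of x) = FreeGroup.of x → S x = {x} := by
  classical
  choose s hs hs' using fun x => exists_support (τ (FreeGroup.of x))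
  refine ⟨fun x => if τ (FreeGroup.of x) = FreeGroup.of x then {x} else insert x (s x),
    fun x => ?_, fun x => ?_, fun x => ?_, fun x hx => if_pos hx⟩
  · beta_reduce
    split_ifs
    · exact Set.finite_singleton x
    · exact (hs x).insert x
  · beta_reduce
    split_ifs with h
    · rw [h]; exact of_mem_Sp rfl
    · exact Sp_mono (Set.subset_insert _ _) (hs' x)
  · beta_reduce
    split_ifs
    · rfl
    · exact Set.mem_insert _ _

/-- every automorphism is a product of two conjugates of the shift -/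
theorem two_shifts [Infinite α] (c₀ : α ≃ ℤ × α) (φ : MulAut (FreeGroup α)) :
    ∃ a b : MulAut (FreeGroup α), IsConj (PA (shiftOf c₀)) a ∧ IsConj (PA (shiftOf c₀)) b ∧
      φ = a * b := by
  obtain ⟨β, Z, Y, hZ, hY, h1, h2⟩ := fac_all φ
  have h3 : ∀ y ∈ Y, (β⁻¹ * φ) (FreeGroup.of y) = FreeGroup.of y := fun y hy => by
    rw [MulAut.mul_apply, ← h2 y hy]; simp
  obtain ⟨U, V, hUZ, hVY, hU, hV, hUV⟩ := split_pair Z Y hZ hY
  obtain ⟨A, W, hAU, hWU, hA, hW, hAW⟩ := split2 U hU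
  obtain ⟨B, W', hBV, hWV, hB, hW', hBW⟩ := split2 V hV
  have hAB : ∀ x ∈ A, x ∉ B := fun x hx hx' => hUV x (hAU hx) (hBV hx')
  have hBA : ∀ x ∈ B, x ∉ A := fun x hx hx' => hAB x hx' hx
  obtain ⟨S, hS1, hS2, hS3, hS4⟩ := exists_S β
  obtain ⟨T, hT1, hT2, hT3, hT4⟩ := exists_S (β⁻¹ * φ)
  obtain ⟨f, p, hp⟩ := exists_half A B W hB hW (fun x hx hx' => hAW x hx' hx) S hS1
    (fun x hx y hy => by
      rw [hS4 x (h1 x (hUZ (hWU hx)))] at hy
      rw [Set.mem_singleton_iff.1 hy]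
      exact fun hb => hUV x (hWU hx) (hBV hb))
  obtain ⟨g, p', hp'⟩ := exists_half B A W' hA hW' (fun x hx hx' => hBW x hx' hx) T hT1
    (fun x hx y hy => by
      rw [hT4 x (h3 x (hVY (hWV hx)))] at hy
      rw [Set.mem_singleton_iff.1 hy]
      exact fun ha => hUV x (hAU ha) (hWV hx))
  obtain ⟨σ, hσ1, hσ2, hσ3⟩ := exists_glue A B f g
  have c1 : IsConj (PA σ⁻¹) (PA σ⁻¹ * β) := absorb σ⁻¹ A B hAB
    (fun y hy => by
      by_contra h
      exact hy (by simpa using (hσ3 _).2 h))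
    β (fun x hx => h1 x (hUZ (hAU hx))) S hS2 hS3 p
    (fun x y hy h => by rw [hσ1 y h]; exact hp x y hy h)
  have c2 : IsConj (PA σ) (PA σ * (β⁻¹ * φ)) := absorb σ B A hBA
    (fun y hy => (hσ3 y).2 hy) _ (fun x hx => h3 x (hVY (hBV hx))) T hT2 hT3 p'
    (fun x y hy h => by rw [hσ2 y h]; exact hp' x y hy h)
  obtain ⟨c, hc⟩ := is_shift σ A B hAB hσ3 p p'
    (fun y h => by rw [hσ1 y h]; exact hp y y (hS3 y) h)
    (fun y h => by rw [hσ2 y h]; exact hp' y y (hT3 y) h)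
    (le_antisymm (Cardinal.mk_set_le _) (hW ▸ Cardinal.mk_le_mk_of_subset
      (fun x hx h => h.elim (fun ha => hAW x ha hx) (fun hb => hUV x (hWU hx) (hBV hb)))))
  have d1 : IsConj (PA (shiftOf c₀)) (PA σ) := by
    rw [hc]; exact PA.map_isConj (shiftOf_conj c₀ c)
  have d2 : IsConj (PA (shiftOf c₀)) (PA σ⁻¹) := by
    rw [hc, shiftOf_inv]; exact PA.map_isConj (shiftOf_conj c₀ _)
  have c3 : IsConj (PA σ⁻¹ * β) (β * PA σ⁻¹) :=
    isConj_iff.2 ⟨β, by simp [mul_assoc]⟩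
  refine ⟨β * PA σ⁻¹, PA σ * (β⁻¹ * φ), (d2.trans c1).trans c3, d1.trans c2, ?_⟩
  rw [map_inv]
  simp [mul_assoc]

end Pool.Agent.P.MP_8e22c2_al.T2

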