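import Mathlib

set_option autoImplicit false

namespace Pool.Agent.P.MP_8e22c2_al

open Filter Cardinal

section General
variable {F : Type*} [Group F]

/-- pointwise limits of automorphisms -/
theorem exists_limit (u : ℕ → MulAut F)
    (h1 : ∀ w, ∃ v, ∀ᶠ n in atTop, u n w = v)
    (h2 : ∀ w, ∃ v, ∀ᶠ n in atTop, (u n)⁻¹ w = v) :
    ∃ a : MulAut F, ∀ w, ∀ᶠ n in atTop, u n w = a w := by
  choose f hf using h1
  choose g hg using h2
  refine ⟨⟨⟨f, g, ?_, ?_⟩, ?_⟩, hf⟩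
  · intro w
    obtain ⟨n, hn1, hn2⟩ := ((hf w).and (hg (f w))).exists
    rw [← hn2, ← hn1]; simp
  · intro w
    obtain ⟨n, hn1, hn2⟩ := ((hg w).and (hf (g w))).exists
    rw [← hn2, ← hn1]; simp
  · intro x y
    obtain ⟨n, h1, h2, h3⟩ := ((hf x).and ((hf y).and (hf (x * y)))).exists
    simp only [← h1, ← h2, ← h3, map_mul]

theorem wave_stab (s g : MulAut F) (H : Set F)
    (hs : ∀ h ∈ H, s⁻¹ h ∈ H) (hg : ∀ h ∈ H, g⁻¹ h = s⁻¹ h)
    (w : F) (N : ℕ) (hN : (s⁻¹ ^ N) w ∈ H) :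
    ∀ᶠ n in atTop, (g ^ n * s⁻¹ ^ n) w = (g ^ N * s⁻¹ ^ N) w := by
  rw [eventually_atTop]
  refine ⟨N, fun n hn => ?_⟩
  have key : (s⁻¹ ^ n) w ∈ H ∧ (g ^ n * s⁻¹ ^ n) w = (g ^ N * s⁻¹ ^ N) w := by
    induction n, hn using Nat.le_induction with
    | base => exact ⟨hN, rfl⟩
    | succ n hn ih =>
      obtain ⟨ih1, ih2⟩ := ih
      have e1 : (s⁻¹ ^ (n + 1)) w = s⁻¹ ((s⁻¹ ^ n) w) := by
        rw [pow_succ', MulAut.mul_apply]
      refine ⟨e1 ▸ hs _ ih1, ?_⟩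
      rw [← ih2, MulAut.mul_apply, MulAut.mul_apply, e1, ← hg _ ih1, pow_succ, MulAut.mul_apply]
      simp
  exact key.2

/-- wave operator lemma -/
theorem wave (s g : MulAut F) (H : Set F)
    (hs : ∀ h ∈ H, s⁻¹ h ∈ H) (hg : ∀ h ∈ H, g⁻¹ h = s⁻¹ h)
    (hs' : ∀ w, ∃ n : ℕ, (s⁻¹ ^ n) w ∈ H) (hg' : ∀ w, ∃ n : ℕ, (g⁻¹ ^ n) w ∈ H) :
    IsConj s g := by
  obtain ⟨a, ha⟩ := exists_limit (fun n => g ^ n * s⁻¹ ^ n)
    (fun w => by
      obtain ⟨N, hN⟩ := hs' w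
      exact ⟨_, wave_stab s g H hs hg w N hN⟩)
    (fun w => by
      obtain ⟨N, hN⟩ := hg' w
      refine ⟨(s ^ N * g⁻¹ ^ N) w, (wave_stab g s H (fun h hh => (hg h hh) ▸ hs h hh)
        (fun h hh => (hg h hh).symm) w N hN).mono fun n hn => ?_⟩
      rw [← hn]
      congr 1
      simp [mul_inv_rev])
  rw [isConj_iff]
  refine ⟨a, ?_⟩
  rw [mul_inv_eq_iff_eq_mul]
  ext w
  have h1 := (tendsto_add_atTop_nat 1).eventually (ha (s w))
  obtain ⟨n, hn1, hn2⟩ := (h1.and (ha w)).exists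
  rw [MulAut.mul_apply, MulAut.mul_apply, ← hn1, ← hn2]
  simp only [MulAut.mul_apply]
  rw [pow_succ' g, pow_succ s⁻¹, MulAut.mul_apply, MulAut.mul_apply]
  simp

theorem descend (ψ : MulAut F) (K : ℕ → Set F) (h : ∀ n, ∀ w ∈ K (n + 1), ψ w ∈ K n)
    (n : ℕ) (w : F) (hw : w ∈ K n) : (ψ ^ n) w ∈ K 0 := by
  induction n generalizing w with
  | zero => simpa using hw
  | succ n ih =>
    rw [pow_succ, MulAut.mul_apply]
    exact ih _ (h n w hw)

end General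

section Free
variable {α : Type*}

/-- the free factor spanned by a set of basis elements -/
def Sp (A : Set α) : Subgroup (FreeGroup α) := Subgroup.closure (FreeGroup.of '' A)

theorem of_mem_Sp {A : Set α} {x : α} (hx : x ∈ A) : FreeGroup.of x ∈ Sp A :=
  Subgroup.subset_closure ⟨x, hx, rfl⟩

theorem Sp_mono {A B : Set α} (h : A ⊆ B) : Sp A ≤ Sp B :=
  Subgroup.closure_mono (Set.image_mono h)

theorem map_Sp {G : Type*} [Group G] {φ : Type*} [FunLike φ (FreeGroup α) G]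
    [MonoidHomClass φ (FreeGroup α) G] (f : φ) {A : Set α} (L : Subgroup G)
    (h : ∀ x ∈ A, f (FreeGroup.of x) ∈ L) : ∀ w ∈ Sp A, f w ∈ L := by
  intro w hw
  induction hw using Subgroup.closure_induction with
  | mem x hx =>
    obtain ⟨y, hy, rfl⟩ := hx
    exact h y hy
  | one => simp
  | mul x y _ _ hx hy => rw [map_mul]; exact L.mul_mem hx hy
  | inv x _ hx => rw [map_inv]; exact L.inv_mem hx

theorem eq_on_Sp {G : Type*} [Group G] {φ : Type*} [FunLike φ (FreeGroup α) G]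
    [MonoidHomClass φ (FreeGroup α) G] {φ' : Type*} [FunLike φ' (FreeGroup α) G]
    [MonoidHomClass φ' (FreeGroup α) G] (f : φ) (g : φ') {A : Set α}
    (h : ∀ x ∈ A, f (FreeGroup.of x) = g (FreeGroup.of x)) : ∀ w ∈ Sp A, f w = g w := by
  intro w hw
  induction hw using Subgroup.closure_induction with
  | mem x hx =>
    obtain ⟨y, hy, rfl⟩ := hx
    exact h y hy
  | one => simp
  | mul x y _ _ hx hy => rw [map_mul, map_mul, hx, hy]
  | inv x _ hx => rw [map_inv, map_inv, hx]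

theorem exists_support (w : FreeGroup α) : ∃ s : Set α, s.Finite ∧ w ∈ Sp s := by
  induction w using FreeGroup.induction_on with
  | C1 => exact ⟨∅, Set.finite_empty, Subgroup.one_mem _⟩
  | of x => exact ⟨{x}, Set.finite_singleton x, of_mem_Sp rfl⟩
  | inv_of x h =>
    obtain ⟨s, hs, h⟩ := h
    exact ⟨s, hs, Subgroup.inv_mem _ h⟩
  | mul x y hx hy =>
    obtain ⟨s, hs, hx⟩ := hx
    obtain ⟨t, ht, hy⟩ := hy
    exact ⟨s ∪ t, hs.union ht, Subgroup.mul_mem _ (Sp_mono Set.subset_union_left hx)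
      (Sp_mono Set.subset_union_right hy)⟩

theorem exists_level (f : α → ℤ) (w : FreeGroup α) :
    ∃ n : ℕ, w ∈ Sp {x | f x ≤ n} := by
  obtain ⟨s, hs, hw⟩ := exists_support w
  obtain ⟨b, hb⟩ := (hs.image f).bddAbove
  refine ⟨b.toNat, Sp_mono (fun x hx => ?_) hw⟩
  have := hb ⟨x, hx, rfl⟩
  show f x ≤ _
  omega

/-- permutation automorphisms -/
def PA : Equiv.Perm α →* MulAut (FreeGroup α) where
  toFun e := FreeGroup.freeGroupCongr e
  map_one' := FreeGroup.freeGroupCongr_refl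
  map_mul' e f := (FreeGroup.freeGroupCongr_trans f e).symm

@[simp] theorem PA_of (e : Equiv.Perm α) (x : α) :
    PA e (FreeGroup.of x) = FreeGroup.of (e x) := FreeGroup.map.of

end Free

end Pool.Agent.P.MP_8e22c2_al
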